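import Pool.Agent.Lib.MP_62a69e_lc.FSPos
import Pool.Agent.Lib.MP_62a69e_lc.FSFin
import Pool.Agent.Lib.MP_62a69e_lc.Exist

/-!
# Two colours do not suffice for countably many colours in tree uniformization

In ZFC, without further hypotheses: there is a ccc complete Boolean algebra (of a finite support
iteration of uniformizing posets) such that for every ladder system `C` and every Aronszajn tree
`T`, it is forced that `T` has no cofinal branch, that `unif²_T(C)` holds and that
`unif^ω_T(C)` fails.
-/

set_option autoImplicit false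

namespace Pool.Agent.Results.MP_62a69e_lc.ConsistentSeparation

open Pool.Agent.Ladder

/-- Main result, in Boolean-valued form. -/
theorem result :
    (∃ (T : Type) (_ : PartialOrder T) (tr : OTree T), tr.IsAronszajn) ∧
    Nonempty LadderSystem ∧
    ∃ (B : Type) (_ : CompleteBooleanAlgebra B), Nontrivial B ∧ BCCC B ∧
      ∀ (C : LadderSystem) (T : Type) (_ : PartialOrder T) (tr : OTree T), tr.IsAronszajn →
        branchVal B tr = ⊥ ∧ unifTwoVal B C tr = ⊤ ∧ unifOmegaVal B C tr = ⊥ := by
  refine ⟨exists_aronszajn, ladderSystem_nonempty, ?_⟩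
  obtain ⟨C, bk, hbk⟩ := exists_bookkeeping
  refine ⟨RO (Po bk), inferInstance, ⟨⊥, ⊤, ?_⟩, bccc_Po bk, ?_⟩
  · intro h
    obtain ⟨p, hp⟩ : ∃ p : Po bk, p = emptyCd KK C := ⟨emptyCd KK C, rfl⟩
    have h1 : p ∈ (⊤ : RO (Po bk)) := RO.mem_top
    rw [← h] at h1
    exact RO.mem_bot h1
  · intro L T _ tr hT
    exact ⟨branchVal_Po bk tr hT, unifTwoVal_Po hbk L tr hT.1,
      unifOmegaVal_Po L tr (fun ξ => (hT.1 ξ).2)⟩

end Pool.Agent.Results.MP_62a69e_lc.ConsistentSeparation
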